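import Pool.Agent.MP42.BW.G0

/-!
# Bounded grid refinement, genus zero, planes with one facing

Orthogonal polyhedra of genus zero such that, for some axis, no grid plane orthogonal to it contains
surface rectangles with both outer normals.  The 35 by 35 refinement has an edge unfolding.
-/

namespace Pool.Agent.Results.MP_42d4af_co.GenusZeroOneSided

open Pool.Agent.Helper55.UNF Pool.BW

theorem result (P : GridSolid) (hP : P.IsOrthogonalPolyhedron) (hE : eul P = 2)
    (hG : ∃ a, OneSided P a) : (P.refine 35 (Nat.succ_pos 34)).HasEdgeUnfolding :=
  genus_zero_one_sided P hP hE hG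

end Pool.Agent.Results.MP_42d4af_co.GenusZeroOneSided
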