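import Pool.Agent.MP42.EO.Fin2
import Pool.Agent.MP42.EO.Stmt

/-!
# Bounded grid refinement, genus zero, vertices of degree six of one sign

Let `P` be an orthogonal polyhedron of genus zero.  At a vertex of degree six there are three convex
edges.  If the product of the signs of their directions is the same at all vertices of degree six,
then the 3639 by 3639 refinement has an edge unfolding.
-/

namespace Pool.Agent.Results.MP_42d4af_co.GenusZeroSameSign

open Pool.Agent.Helper55.UNF Pool.BW Pool.Agent.MP42.EO

theorem result (P : GridSolid) (hP : P.IsOrthogonalPolyhedron) (hE : eul P = 2)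
    (hS : SameSign P) : (P.refine 3639 (Nat.succ_pos 3638)).HasEdgeUnfolding := by
  obtain ⟨b, hb, hB⟩ := exists_noB_axis hP.1 hS 0
  exact unfold_noB hP hE hb hB (Nat.succ_pos 3638)

end Pool.Agent.Results.MP_42d4af_co.GenusZeroSameSign
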